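import Pool.Agent.W805.ER.Defs

/-!
ER-8 of helper805's project (MP_d893f8_an): the core/layer inequality for trigonometric
polynomials on the circle, from the inequality on intervals.
-/

open MeasureTheory Complex Filter Topology Set
open scoped ENNReal Real

namespace Pool.Agent.W63.ER8

open Pool.Agent.W805.ER

noncomputable section

local instance : MeasureSpace UnitAddCircle := ⟨AddCircle.haarAddCircle⟩
local instance : IsProbabilityMeasure (volume : Measure UnitAddCircle) :=
  inferInstanceAs (IsProbabilityMeasure AddCircle.haarAddCircle)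

/-- the integral over the circle is the integral over `(-1/2, 1/2)` -/
lemma integral_circle (f : UnitAddCircle → ℝ) :
    ∫ x, f x ∂(AddCircle.haarAddCircle : Measure UnitAddCircle) =
      ∫ s in (-(1 / 2) : ℝ)..(1 / 2), f (s : UnitAddCircle) := by
  have h1 := AddCircle.intervalIntegral_preimage (1 : ℝ) (-(1 / 2)) f
  rw [AddCircle.volume_eq_smul_haarAddCircle] at h1
  simp only [ENNReal.ofReal_one, one_smul] at h1
  rw [← h1]
  norm_num

/-- cutting off an interval integral -/
lemma integral_cut (h : ℝ → ℝ) (r : ℝ) (hr : 0 < r) (hr2 : r ≤ 1 / 2) :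
    ∫ s in (-(1 / 2) : ℝ)..(1 / 2), (if |s| < r then (1 : ℝ) else 0) * h s =
      ∫ s in (-r)..r, h s := by
  rw [intervalIntegral.integral_of_le (by norm_num), intervalIntegral.integral_of_le (by linarith)]
  have h2 : (fun s : ℝ => (if |s| < r then (1 : ℝ) else 0) * h s) =
      (Ioo (-r) r).indicator h := by
    funext s
    by_cases hs : |s| < r
    · rw [if_pos hs, indicator_of_mem (by exact abs_lt.1 hs), one_mul]
    · have hn : s ∉ Ioo (-r) r := fun hm => hs (abs_lt.2 hm)
      rw [if_neg hs, indicator_of_notMem hn, zero_mul]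
  have h3 : Ioo (-r) r ⊆ Ioc (-(1 / 2) : ℝ) (1 / 2) :=
    fun s hs => ⟨by linarith [hs.1], by linarith [hs.2]⟩
  rw [h2, setIntegral_indicator measurableSet_Ioo, inter_eq_self_of_subset_right h3]
  exact (integral_Ioc_eq_integral_Ioo).symm

lemma norm_coe (s : ℝ) (hs : |s| ≤ 1 / 2) : ‖(s : UnitAddCircle)‖ = |s| := by
  have := (AddCircle.norm_coe_eq_abs_iff (x := s) (1 : ℝ) one_ne_zero).2 (by
    rw [abs_one]; exact hs)
  exact this

/-- the trigonometric polynomial -/
def trig (F : Finset ℤ) (c : ℤ → ℂ) (s : ℝ) : ℂ :=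
  ∑ j ∈ F, c j * cexp (2 * π * I * j * s)

lemma trig_continuous (F : Finset ℤ) (c : ℤ → ℂ) : Continuous (trig F c) := by
  unfold trig
  fun_prop

lemma coe_trig (F : Finset ℤ) (c : ℤ → ℂ) :
    ((∑ j ∈ F, c j • e1 j : L1) : UnitAddCircle → ℂ) =ᵐ[AddCircle.haarAddCircle]
      fun x => ∑ j ∈ F, c j * fourier j x := by
  have h1 : ((∑ j ∈ F, c j • e1 j : L1) : UnitAddCircle → ℂ) =ᵐ[AddCircle.haarAddCircle]
      ∑ j ∈ F, ((c j • e1 j : L1) : UnitAddCircle → ℂ) := by
    exact Lp.coeFn_finsetSum _ _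
  refine h1.trans ?_
  have h2 : ∀ j : ℤ, ((c j • e1 j : L1) : UnitAddCircle → ℂ) =ᵐ[AddCircle.haarAddCircle]
      fun x => c j * fourier j x := by
    intro j
    have h3 : ((c j • e1 j : L1) : UnitAddCircle → ℂ) =ᵐ[AddCircle.haarAddCircle]
      c j • ((e1 j : L1) : UnitAddCircle → ℂ) := Lp.coeFn_smul _ _
    refine h3.trans ?_
    have h4 : ((e1 j : L1) : UnitAddCircle → ℂ) =ᵐ[AddCircle.haarAddCircle] fourier j := by
      have : e1 j = fourierLp 2 j := by
        unfold e1
        rw [coe_fourierBasis]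
      rw [this]
      exact coeFn_fourierLp 2 j
    filter_upwards [h4] with x hx
    simp only [Pi.smul_apply, smul_eq_mul, hx]
  have h5 : ∀ᵐ x ∂(AddCircle.haarAddCircle : Measure UnitAddCircle),
      ∀ j : ℤ, ((c j • e1 j : L1) : UnitAddCircle → ℂ) x = c j * fourier j x :=
    ae_all_iff.2 h2
  filter_upwards [h5] with x hx
  rw [Finset.sum_apply]
  exact Finset.sum_congr rfl (fun j _ => hx j)

lemma fourier_sum_coe (F : Finset ℤ) (c : ℤ → ℂ) (s : ℝ) :
    ∑ j ∈ F, c j * fourier j (s : UnitAddCircle) = trig F c s := by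
  unfold trig
  refine Finset.sum_congr rfl (fun j _ => ?_)
  rw [fourier_coe_apply]
  simp

/-- the quadratic form with any weight as an interval integral -/
lemma qf_trig (b : UnitAddCircle → ℝ) (F : Finset ℤ) (c : ℤ → ℂ) :
    qf volume b (∑ j ∈ F, c j • e1 j) =
      ∫ s in (-(1 / 2) : ℝ)..(1 / 2), b (s : UnitAddCircle) * ‖trig F c s‖ ^ 2 := by
  unfold qf
  have h1 : ∫ x, b x * ‖(∑ j ∈ F, c j • e1 j : L1) x‖ ^ 2 ∂(volume : Measure UnitAddCircle) =
      ∫ x, b x * ‖∑ j ∈ F, c j * fourier j x‖ ^ 2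
        ∂(AddCircle.haarAddCircle : Measure UnitAddCircle) := by
    refine integral_congr_ae ?_
    have h2 := coe_trig F c
    change _ =ᵐ[AddCircle.haarAddCircle] _
    filter_upwards [h2] with x hx
    rw [hx]
  rw [h1, integral_circle]
  refine intervalIntegral.integral_congr (fun s _ => ?_)
  rw [fourier_sum_coe]

lemma qf_core (r : ℝ) (hr : 0 < r) (hr2 : r ≤ 1 / 2) (F : Finset ℤ) (c : ℤ → ℂ) :
    qf volume (core r) (∑ j ∈ F, c j • e1 j) = ∫ s in (-r)..r, ‖trig F c s‖ ^ 2 := by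
  rw [qf_trig, ← integral_cut (fun s => ‖trig F c s‖ ^ 2) r hr hr2]
  refine intervalIntegral.integral_congr (fun s hs => ?_)
  rw [uIcc_of_le (by norm_num)] at hs
  have h1 := norm_coe s (abs_le.2 hs)
  simp only [core, h1]

lemma qf_lay (r : ℝ) (hr : 0 < r) (hr2 : r ≤ 1 / 4) (F : Finset ℤ) (c : ℤ → ℂ) :
    qf volume (lay r) (∑ j ∈ F, c j • e1 j) = (∫ s in r..(2 * r), ‖trig F c s‖ ^ 2) +
      ∫ s in (-(2 * r))..(-r), ‖trig F c s‖ ^ 2 := by
  have hc : Continuous (fun s => ‖trig F c s‖ ^ 2) := ((trig_continuous F c).norm).pow 2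
  have hI : ∀ a b : ℝ, IntervalIntegrable (fun s => ‖trig F c s‖ ^ 2) volume a b :=
    fun a b => hc.intervalIntegrable a b
  have h1 : qf volume (lay r) (∑ j ∈ F, c j • e1 j) =
      (∫ s in (-(2 * r))..(2 * r), ‖trig F c s‖ ^ 2) - ∫ s in (-r)..r, ‖trig F c s‖ ^ 2 := by
    rw [qf_trig, ← integral_cut (fun s => ‖trig F c s‖ ^ 2) r hr (by linarith),
      ← integral_cut (fun s => ‖trig F c s‖ ^ 2) (2 * r) (by linarith) (by linarith),
      ← intervalIntegral.integral_sub]
    · refine intervalIntegral.integral_congr (fun s hs => ?_)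
      rw [uIcc_of_le (by norm_num)] at hs
      have h1 := norm_coe s (abs_le.2 hs)
      simp only [lay, h1]
      by_cases ha : |s| < r
      · rw [if_neg (fun h => absurd h.1 (not_le.2 ha)), if_pos ha, if_pos (by linarith)]
        ring
      · by_cases hb : |s| < 2 * r
        · rw [if_pos ⟨not_lt.1 ha, hb⟩, if_neg ha, if_pos hb]
          ring
        · rw [if_neg (fun h => hb h.2), if_neg ha, if_neg hb]
          ring
    · have hm : MeasurableSet {s : ℝ | |s| < 2 * r} :=
        (isOpen_lt continuous_abs continuous_const).measurableSet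
      have : (fun s : ℝ => (if |s| < 2 * r then (1 : ℝ) else 0) * ‖trig F c s‖ ^ 2) =
          {s : ℝ | |s| < 2 * r}.indicator (fun s => ‖trig F c s‖ ^ 2) := by
        funext s
        by_cases hs : |s| < 2 * r
        · rw [if_pos hs, indicator_of_mem (by exact hs), one_mul]
        · rw [if_neg hs, indicator_of_notMem (by exact hs), zero_mul]
      rw [this]
      exact ⟨(hI _ _).1.indicator hm, (hI _ _).2.indicator hm⟩
    · have hm : MeasurableSet {s : ℝ | |s| < r} :=
        (isOpen_lt continuous_abs continuous_const).measurableSet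
      have : (fun s : ℝ => (if |s| < r then (1 : ℝ) else 0) * ‖trig F c s‖ ^ 2) =
          {s : ℝ | |s| < r}.indicator (fun s => ‖trig F c s‖ ^ 2) := by
        funext s
        by_cases hs : |s| < r
        · rw [if_pos hs, indicator_of_mem (by exact hs), one_mul]
        · rw [if_neg hs, indicator_of_notMem (by exact hs), zero_mul]
      rw [this]
      exact ⟨(hI _ _).1.indicator hm, (hI _ _).2.indicator hm⟩
  rw [h1, ← intervalIntegral.integral_add_adjacent_intervals (hI (-(2 * r)) (-r)) (hI (-r) (2 * r)),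
    ← intervalIntegral.integral_add_adjacent_intervals (hI (-r) r) (hI r (2 * r))]
  ring

lemma trig_deriv (F : Finset ℤ) (c : ℤ → ℂ) (x : ℝ) :
    HasDerivAt (trig F c) (trig F (fun j => (2 * π * I * j) * c j) x) x := by
  unfold trig
  have : ∀ j ∈ F, HasDerivAt (fun s : ℝ => c j * cexp (2 * π * I * j * s))
      ((2 * π * I * j) * c j * cexp (2 * π * I * j * x)) x := by
    intro j _
    have h1 : HasDerivAt (fun s : ℝ => (2 * π * I * j * (s : ℂ))) (2 * π * I * j) x := by
      have := (HasDerivAt.ofReal_comp (hasDerivAt_id x)).const_mul (2 * π * I * j : ℂ)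
      simpa using this
    have h2 := (h1.cexp).const_mul (c j)
    refine h2.congr_deriv ?_
    ring
  exact HasDerivAt.fun_sum this

theorem main (h : TaskT1) : TaskT1C := by
  refine ⟨2000 * (4 * π ^ 2) ^ 2, ?_, ?_⟩
  · nlinarith [Real.pi_gt_three, sq_nonneg (π ^ 2 - 9), mul_self_nonneg (π ^ 2)]
  intro r μ F c hr hr4
  have hT := h r (4 * π ^ 2 * μ) (trig F c) (trig F (fun j => (2 * π * I * j) * c j))
    (trig F (fun j => (2 * π * I * j) * ((2 * π * I * j) * c j))) hr
    (trig_deriv F c) (trig_deriv F _) (trig_continuous F _)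
  rw [qf_core r hr (by linarith), qf_lay r hr hr4, qf_core (2 * r) (by linarith) (by linarith)]
  have hG : ∀ x : ℝ, ‖trig F (fun j => (2 * π * I * j) * ((2 * π * I * j) * c j)) x +
      ((4 * π ^ 2 * μ : ℝ) : ℂ) * trig F c x‖ ^ 2 =
      (4 * π ^ 2) ^ 2 * ‖trig F (fun j : ℤ => (((j : ℝ) ^ 2 - μ : ℝ) * c j : ℂ)) x‖ ^ 2 := by
    intro x
    have : trig F (fun j => (2 * π * I * j) * ((2 * π * I * j) * c j)) x +
      ((4 * π ^ 2 * μ : ℝ) : ℂ) * trig F c x =
        ((-(4 * π ^ 2) : ℝ) : ℂ) * trig F (fun j : ℤ => (((j : ℝ) ^ 2 - μ : ℝ) * c j : ℂ)) x := by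
      unfold trig
      rw [Finset.mul_sum, Finset.mul_sum, ← Finset.sum_add_distrib]
      refine Finset.sum_congr rfl (fun j _ => ?_)
      push_cast
      have hI : (I : ℂ) ^ 2 = -1 := I_sq
      linear_combination (4 * π ^ 2 * j ^ 2 * c j * cexp (2 * π * I * j * x)) * hI
    rw [this, norm_mul, mul_pow, Complex.norm_real, Real.norm_eq_abs, sq_abs]
    ring
  have hI2 : ∫ x in (-(2 * r))..(2 * r),
      ‖trig F (fun j => (2 * π * I * j) * ((2 * π * I * j) * c j)) x +
      ((4 * π ^ 2 * μ : ℝ) : ℂ) * trig F c x‖ ^ 2 = (4 * π ^ 2) ^ 2 *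
        ∫ x in (-(2 * r))..(2 * r),
          ‖trig F (fun j : ℤ => (((j : ℝ) ^ 2 - μ : ℝ) * c j : ℂ)) x‖ ^ 2 := by
    rw [← intervalIntegral.integral_const_mul]
    exact intervalIntegral.integral_congr (fun x _ => hG x)
  rw [hI2] at hT
  have hA : 0 ≤ ∫ x in r..(2 * r), ‖trig F c x‖ ^ 2 :=
    intervalIntegral.integral_nonneg (by linarith) (fun x _ => by positivity)
  have hB : 0 ≤ ∫ x in (-(2 * r))..(-r), ‖trig F c x‖ ^ 2 :=
    intervalIntegral.integral_nonneg (by linarith) (fun x _ => by positivity)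
  have hK : (1 : ℝ) ≤ (4 * π ^ 2) ^ 2 := by
    nlinarith [Real.pi_gt_three, sq_nonneg (π ^ 2 - 9), mul_self_nonneg (π ^ 2)]
  nlinarith [mul_nonneg (sub_nonneg.2 hK) (add_nonneg hA hB)]

end

end Pool.Agent.W63.ER8
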